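import Pool.Agent.H7.Ell.Main

/-!
# MP_13b08e_lc (Q2): planar members of the elliptope of a graph have small rational completions

Let `G` be any finite graph and `x` a rational vector indexed by its edges. If there are unit vectors
of the *plane* with inner products `x` along the edges (i.e. `x` has a psd completion of rank at most
two), then `x` has a *rational* psd completion all of whose entries have a common denominator at most
`2 ^ (|E| + 1) * (∏ denominators of x) ^ 2`, so of polynomial bit length.

Idea: write the vectors as complex numbers `c i` of modulus one. For an edge `ij` the number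
`c i / c j` is a root of `X² - 2 x_ij X + 1`, so it is algebraic and ALL its conjugates have modulus
one. Normalise one vertex of each component; then all conjugates of the Gram matrix are again Gram
matrices of unit vectors of the plane and completions of `x`, and their average is rational.
-/

set_option autoImplicit false

open Matrix

namespace Pool.Agent.Results.MP_13b08e_lc.PlanarRational

/-- `X` is a psd completion of `x ∈ ℚ^E` (so `x ∈ 𝓔(G)` iff there is such an `X`). -/
def IsCompletion {n : ℕ} (G : SimpleGraph (Fin n)) (x : Sym2 (Fin n) → ℚ)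
    (X : Matrix (Fin n) (Fin n) ℝ) : Prop :=
  X.PosSemidef ∧ (∀ i, X i i = 1) ∧ ∀ i j, G.Adj i j → X i j = (x s(i, j) : ℝ)

theorem result : ∀ (n : ℕ) (G : SimpleGraph (Fin n)) [DecidableRel G.Adj]
    (x : Sym2 (Fin n) → ℚ),
    (∃ u : Fin n → EuclideanSpace ℝ (Fin 2), (∀ i, ‖u i‖ = 1) ∧
      ∀ i j, G.Adj i j → inner ℝ (u i) (u j) = (x s(i, j) : ℝ)) →
    ∃ (Y : Matrix (Fin n) (Fin n) ℚ) (D : ℕ),
      IsCompletion G x (Y.map (fun q : ℚ => (q : ℝ))) ∧
      0 < D ∧ D ≤ 2 ^ (G.edgeFinset.card + 1) * (∏ e ∈ G.edgeFinset, (x e).den) ^ 2 ∧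
      ∀ i j, |Y i j| ≤ 1 ∧ ∃ k : ℤ, (D : ℚ) * Y i j = k := by
  rintro n G _ x ⟨u, hu, hx⟩
  set c : Fin n → ℂ := fun i => ⟨u i 0, u i 1⟩ with hcdef
  have hin : ∀ i j, (c i * (starRingEnd ℂ) (c j)).re = inner ℝ (u i) (u j) := by
    intro i j
    rw [PiLp.inner_apply, Fin.sum_univ_two]
    simp [hcdef]
    ring
  have hc : ∀ i, ‖c i‖ = 1 := by
    intro i
    have h1 := hin i i
    rw [real_inner_self_eq_norm_sq, hu, Complex.mul_conj, Complex.ofReal_re,
      Complex.normSq_eq_norm_sq] at h1
    have h2 := norm_nonneg (c i)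
    nlinarith
  obtain ⟨Y, hY1, hY2, hY3, D, hD1, hD2, hD3⟩ := Pool.Agent.H7.Ell.main G x c hc
    (fun i j h => by rw [hin, hx i j h])
  refine ⟨Y, D, ⟨hY1, fun i => ?_, fun i j h => ?_⟩, hD1, hD2, fun i j => ⟨?_, hD3 i j⟩⟩
  · rw [Matrix.map_apply, hY2]
    norm_num
  · rw [Matrix.map_apply, hY3 i j h]
  · have hs : Y j i = Y i j := by
      have := hY1.1.apply i j
      simp only [Matrix.map_apply, star_trivial] at this
      exact_mod_cast this
    have hq : ∀ t : ℝ, 0 ≤ 1 + 2 * t * (Y i j : ℝ) + t ^ 2 := by
      intro t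
      have h1 := hY1.dotProduct_mulVec_nonneg (Pi.single i 1 + t • Pi.single j 1)
      simp only [star_trivial, Matrix.mulVec_add, Matrix.mulVec_smul, add_dotProduct,
        dotProduct_add, smul_dotProduct, dotProduct_smul, Matrix.mulVec_single_one,
        single_one_dotProduct, Matrix.col_apply, Matrix.map_apply, smul_eq_mul, hY2, hs] at h1
      push_cast at h1
      nlinarith
    have h1 := hq 1
    have h2 := hq (-1)
    have h3 : |(Y i j : ℝ)| ≤ 1 := abs_le.2 ⟨by linarith, by linarith⟩
    exact_mod_cast h3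

end Pool.Agent.Results.MP_13b08e_lc.PlanarRational
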